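import Pool.Agent.Helper82.BR.St

set_option autoImplicit false

namespace Pool.Agent.Helper96.BR

open Pool.Agent.Helper82.BR

private lemma dsq (z w : ℂ) (r : ℝ) (h : dist z w = r) :
    (z.re - w.re) ^ 2 + (z.im - w.im) ^ 2 = r ^ 2 := by
  rw [← h, Complex.dist_eq, Complex.sq_norm, Complex.normSq_apply, Complex.sub_re, Complex.sub_im]
  ring

private lemma gram (u1 u2 v1 v2 x1 x2 R : ℝ) (hR : 0 < R) (h11 : u1 ^ 2 + u2 ^ 2 = R)
    (h22 : v1 ^ 2 + v2 ^ 2 = R) (h33 : x1 ^ 2 + x2 ^ 2 = R) (h12 : u1 * v1 + u2 * v2 = R / 2)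
    (h13 : u1 * x1 + u2 * x2 = R / 2) (h23 : v1 * x1 + v2 * x2 = R / 2) : False := by
  have g : (u1 ^ 2 + u2 ^ 2) * (v1 ^ 2 + v2 ^ 2) * (x1 ^ 2 + x2 ^ 2) +
      2 * (u1 * v1 + u2 * v2) * (u1 * x1 + u2 * x2) * (v1 * x1 + v2 * x2) -
      (u1 ^ 2 + u2 ^ 2) * (v1 * x1 + v2 * x2) ^ 2 - (v1 ^ 2 + v2 ^ 2) * (u1 * x1 + u2 * x2) ^ 2 -
      (x1 ^ 2 + x2 ^ 2) * (u1 * v1 + u2 * v2) ^ 2 = 0 := by ring
  rw [h11, h22, h33, h12, h13, h23] at g
  have h : R ^ 3 / 2 = 0 := by linear_combination g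
  have h2 : 0 < R ^ 3 / 2 := by positivity
  exact absurd h (ne_of_gt h2)

theorem hKF : StKF := by
  intro a b c d r hr hab hac had hbc hbd hcd
  have e1 := dsq a b r hab
  have e2 := dsq a c r hac
  have e3 := dsq a d r had
  have e4 := dsq b c r hbc
  have e5 := dsq b d r hbd
  have e6 := dsq c d r hcd
  refine gram (b.re - a.re) (b.im - a.im) (c.re - a.re) (c.im - a.im) (d.re - a.re) (d.im - a.im)
    (r ^ 2) (by positivity) ?_ ?_ ?_ ?_ ?_ ?_
  · linear_combination e1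
  · linear_combination e2
  · linear_combination e3
  · linear_combination (e1 + e2 - e4) / 2
  · linear_combination (e1 + e3 - e5) / 2
  · linear_combination (e2 + e3 - e6) / 2

end Pool.Agent.Helper96.BR
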